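import Pool.Agent.helper88.PF.Spec

namespace PF

theorem CPR_lt {n p : ℕ} (hn : 0 < n) : p % n < n := Nat.mod_lt _ hn

theorem CPR_comb {α : Type} [LE α] (n : ℕ) (hn : 0 < n) (x : Fin n → ℕ → α)
    (hx : ∀ l, CE (x l)) : CE (fun p => x ⟨p % n, CPR_lt hn⟩ (p / n)) := by
  intro v
  have hmod : Computable (fun p : ℕ => p % n) :=
    (Primrec.nat_mod.comp Primrec.id (Primrec.const n)).to_comp
  have hdiv : Computable (fun p : ℕ => p / n) :=
    (Primrec.nat_div.comp Primrec.id (Primrec.const n)).to_comp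
  have key : ∀ k : ℕ, k ≤ n →
      REPred (fun p : ℕ => p % n < k ∧ v ≤ x ⟨p % n, CPR_lt hn⟩ (p / n)) := by
    intro k
    induction k with
    | zero =>
      intro _
      refine (re_const (α := ℕ) False).of_eq fun p => ?_
      constructor
      · exact fun h => h.elim
      · rintro ⟨h, -⟩
        exact absurd h (Nat.not_lt_zero _)
    | succ k ih =>
      intro hk
      have h1 := ih (by omega)
      have h2 : REPred (fun p : ℕ => p % n = k ∧ v ≤ x ⟨k, by omega⟩ (p / n)) :=
        re_and (cp_eq hmod (Computable.const k)).to_re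
          (re_comp (p := fun q => v ≤ x ⟨k, by omega⟩ q) hdiv (hx ⟨k, by omega⟩ v))
      refine (re_or h1 h2).of_eq fun p => ?_
      constructor
      · rintro (⟨h3, h4⟩ | ⟨h3, h4⟩)
        · exact ⟨by omega, h4⟩
        · refine ⟨by omega, ?_⟩
          have h5 : (⟨p % n, CPR_lt hn⟩ : Fin n) = ⟨k, by omega⟩ := Fin.ext h3
          rw [h5]
          exact h4
      · rintro ⟨h3, h4⟩
        rcases Nat.lt_or_ge (p % n) k with h5 | h5
        · exact Or.inl ⟨h5, h4⟩
        · have h6 : p % n = k := by omega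
          refine Or.inr ⟨h6, ?_⟩
          have h7 : (⟨p % n, CPR_lt hn⟩ : Fin n) = ⟨k, by omega⟩ := Fin.ext h6
          rw [h7] at h4
          exact h4
  refine (key n le_rfl).of_eq fun p => ?_
  exact ⟨fun h => h.2, fun h => ⟨CPR_lt hn, h⟩⟩

theorem CPR_val {α : Type} (n : ℕ) (hn : 0 < n) (x : Fin n → ℕ → α) (l : Fin n) :
    (fun q : ℕ => x ⟨(q * n + l) % n, CPR_lt hn⟩ ((q * n + l) / n)) = x l := by
  funext q
  have h1 : (q * n + (l : ℕ)) % n = l := by
    rw [Nat.add_comm, Nat.add_mul_mod_self_right, Nat.mod_eq_of_lt l.2]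
  have h2 : (q * n + (l : ℕ)) / n = q := by
    rw [Nat.add_comm, Nat.add_mul_div_right _ _ hn, Nat.div_eq_of_lt l.2, Nat.zero_add]
  have h3 : (⟨(q * n + l) % n, CPR_lt hn⟩ : Fin n) = l := Fin.ext h1
  rw [h3, h2]

theorem CPR_ae {α : Type} (n : ℕ) (hn : 0 < n) (x : Fin n → ℕ → α) (K : α → Prop)
    (hx : ∀ l, AE (fun p => K (x l p))) : AE (fun p => K (x ⟨p % n, CPR_lt hn⟩ (p / n))) := by
  unfold AE at hx ⊢
  have h1 : (⋃ l : Fin n, (fun q : ℕ => q * n + (l : ℕ)) '' {p | ¬ K (x l p)}).Finite :=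
    Set.finite_iUnion fun l => (hx l).image _
  refine h1.subset ?_
  intro p hp
  refine Set.mem_iUnion.2 ⟨⟨p % n, CPR_lt hn⟩, p / n, hp, ?_⟩
  show p / n * n + p % n = p
  rw [Nat.mul_comm]
  exact Nat.div_add_mod p n

theorem CPR (hACL : ACL_stmt) (hBTM : BTM_stmt) : CPR_stmt := by
  intro n Γ π
  induction π with
  | one α K =>
    intro M hn h
    by_contra hcon
    push Not at hcon
    have h1 : ∀ l, ∃ x : ℕ → α, CE x ∧ AE (fun p => K (x p)) ∧ ¬ M l x := by
      intro l
      have h2 := hcon l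
      by_contra h3
      apply h2
      intro x hx hK
      by_contra h4
      exact h3 ⟨x, hx, hK, h4⟩
    choose x hx hK hM using h1
    obtain ⟨l, hl⟩ := h _ (CPR_comb n hn x hx) (CPR_ae n hn x K hK)
    rw [CPR_val n hn x l] at hl
    exact hM l hl
  | snoc π β α ih =>
    intro M hn h
    have h1 : Tr π (fun γ => ∃ y : ℕ → β, CE y ∧ ∀ x : ℕ → α, CE x →
        ∃ l : Fin n, M l (fun q => (γ (q * n + l), y (q * n + l), x (q * n + l)))) := h
    have h2 := ih (fun l γ => ∃ y : ℕ → β, CE y ∧ ∀ x : ℕ → α, CE x →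
        M l (fun p => (γ p, y p, x p))) hn ?_
    · exact h2
    · refine hBTM _ π _ _ ?_ h1
      rintro γ hγ ⟨y, hy, hyx⟩
      by_contra hcon
      have h3 : ∀ l : Fin n, ∃ x : ℕ → α, CE x ∧
          ¬ M l (fun p => (γ (p * n + l), y (p * n + l), x p)) := by
        intro l
        by_contra h4
        apply hcon
        refine ⟨l, fun p => y (p * n + l), ?_, ?_⟩
        · refine hACL.2.2.2.1 _ y (fun p => p * n + l) ?_ hy
          exact (Primrec.nat_add.comp (Primrec.nat_mul.comp Primrec.id (Primrec.const n))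
            (Primrec.const (l : ℕ))).to_comp
        · intro x hx
          by_contra h5
          exact h4 ⟨x, hx, h5⟩
      choose x hx hM using h3
      obtain ⟨l, hl⟩ := hyx _ (CPR_comb n hn x hx)
      have h6 := CPR_val n hn x l
      apply hM l
      have h7 : (fun p => (γ (p * n + l), y (p * n + l), x l p)) =
          (fun q => (γ (q * n + l), y (q * n + l),
            x ⟨(q * n + l) % n, CPR_lt hn⟩ ((q * n + l) / n))) := by
        funext q
        rw [← congrFun h6 q]
      rw [h7]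
      exact hl

end PF
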